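import Pool.Agent.H83.G.Targets1

/-!
# MP_ee74d2_an, board `g_modules`: module CPS
-/

set_option autoImplicit false

namespace Pool.Agent.H63.G

open MeasureTheory Set Pool.Agent.H83.G
open scoped ENNReal NNReal RealInnerProductSpace ContDiff

theorem pf_CPS : T_CPS := by
  intro m φ η s G hφ hs hG hG4
  refine ⟨?_, hG.2.mul_left⟩
  rw [contDiff_iff_contDiffAt]
  intro ζ
  by_cases h : ζ.1 < 1 / 4
  · have h0 : (fun ζ => cp φ η s ζ * G ζ) =ᶠ[nhds ζ] fun _ => 0 := by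
      have hopen : IsOpen {ζ : Z m | ζ.1 < 1 / 4} := isOpen_lt continuous_fst continuous_const
      filter_upwards [hopen.mem_nhds h] with x hx
      have h1 : G x = 0 := by
        by_contra hne
        exact absurd hx (not_lt.2 (hG4 x hne))
      rw [h1, mul_zero]
    exact contDiffAt_const.congr_of_eventuallyEq h0
  · have h0 : ζ.1 ≠ 0 := by
      intro h0
      rw [h0] at h
      norm_num at h
    have h1 : ContDiffAt ℝ (⊤ : ℕ∞) (fun ζ : Z m => ζ.1⁻¹) ζ := contDiffAt_fst.inv h0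
    have h2 : ContDiffAt ℝ (⊤ : ℕ∞) (fun ζ : Z m => ζ.2.1) ζ :=
      contDiff_fst.contDiffAt.comp ζ contDiff_snd.contDiffAt
    have h3 : ContDiffAt ℝ (⊤ : ℕ∞) (fun ζ : Z m => s⁻¹ • (ζ.1⁻¹ • ζ.2.1 - η)) ζ :=
      ((h1.smul h2).sub contDiffAt_const).const_smul _
    exact ((hφ.contDiffAt).comp ζ h3).mul hG.1.contDiffAt

end Pool.Agent.H63.G
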