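import Pool.Agent.H83.G.Targets1

/-!
# MP_ee74d2_an, board `g_modules`: module BPD
-/

set_option autoImplicit false

namespace Pool.Agent.H63.G

open MeasureTheory Set Pool.Agent.H83.G
open scoped ENNReal NNReal RealInnerProductSpace ContDiff

private lemma bdd_der {V W : Type*} [NormedAddCommGroup V] [NormedSpace ℝ V]
    [NormedAddCommGroup W] [NormedSpace ℝ W] (f : V → W) (hf : ContDiff ℝ (⊤ : ℕ∞) f)
    (hc : HasCompactSupport f) (L : ℕ) :
    ∃ B : ℝ, 1 ≤ B ∧ ∀ i ≤ L, ∀ x, ‖iteratedFDeriv ℝ i f x‖ ≤ B := by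
  have h1 : ∀ i : ℕ, ∃ B : ℝ, ∀ x, ‖iteratedFDeriv ℝ i f x‖ ≤ B := by
    intro i
    exact (hc.iteratedFDeriv i).exists_bound_of_continuous
      (hf.continuous_iteratedFDeriv (by exact_mod_cast le_top))
  choose B hB using h1
  refine ⟨1 + ∑ i ∈ Finset.range (L + 1), |B i|, ?_, ?_⟩
  · have : 0 ≤ ∑ i ∈ Finset.range (L + 1), |B i| := Finset.sum_nonneg fun i _ => abs_nonneg _
    linarith
  · intro i hi x
    have h2 : |B i| ≤ ∑ i ∈ Finset.range (L + 1), |B i| :=
      Finset.single_le_sum (f := fun i => |B i|) (fun i _ => abs_nonneg _)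
        (Finset.mem_range.2 (by omega))
    have h3 := hB i x
    have h4 := le_abs_self (B i)
    linarith

private lemma comp_bd {m L : ℕ} (X : ℝ × E m → ℂ) (h : ℝ × E m → E m) (φ : E m → ℂ)
    (hX : ContDiff ℝ (⊤ : ℕ∞) X) (hh : ContDiff ℝ (⊤ : ℕ∞) h) (hφ : φ ∈ Bp m L) {B D : ℝ}
    (hB1 : 1 ≤ B) (hD1 : 1 ≤ D) (hB : ∀ i ≤ L, ∀ x, ‖iteratedFDeriv ℝ i X x‖ ≤ B)
    (hD : ∀ i ≤ L, ∀ x, ‖iteratedFDeriv ℝ i h x‖ ≤ D) (j : ℕ) (hj : j ≤ L) (ζ : ℝ × E m) :
    ‖iteratedFDeriv ℝ j (fun ζ => X ζ * φ (h ζ)) ζ‖ ≤ 2 ^ L * (B * (L.factorial * D ^ L)) := by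
  have hcomp : ContDiff ℝ (⊤ : ℕ∞) (fun ζ => φ (h ζ)) := hφ.1.comp hh
  have h1 := norm_iteratedFDeriv_mul_le (n := j) (N := (⊤ : ℕ∞)) hX hcomp ζ
    (by exact_mod_cast le_top)
  refine h1.trans ?_
  have h2 : ∀ i ∈ Finset.range (j + 1), ((j.choose i : ℕ) : ℝ) * ‖iteratedFDeriv ℝ i X ζ‖ *
      ‖iteratedFDeriv ℝ (j - i) (fun ζ => φ (h ζ)) ζ‖ ≤
      ((j.choose i : ℕ) : ℝ) * (B * (L.factorial * D ^ L)) := by
    intro i hi
    have hi' : i ≤ j := by
      have := Finset.mem_range.1 hi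
      omega
    have h3 : ‖iteratedFDeriv ℝ (j - i) (fun ζ => φ (h ζ)) ζ‖ ≤
        ((j - i).factorial : ℝ) * 1 * D ^ (j - i) := by
      refine norm_iteratedFDeriv_comp_le (N := (⊤ : ℕ∞)) hφ.1 hh
        (by generalize j - i = n; exact_mod_cast le_top) ζ ?_ ?_
      · intro l hl
        exact hφ.2.2 l (by omega) _
      · intro l hl1 hl
        refine (hD l (by omega) ζ).trans ?_
        exact le_self_pow₀ hD1 (by omega)
    have h4 : ((j - i).factorial : ℝ) * 1 * D ^ (j - i) ≤ L.factorial * D ^ L := by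
      rw [mul_one]
      have h5 : ((j - i).factorial : ℝ) ≤ L.factorial := by
        exact_mod_cast Nat.factorial_le (by omega)
      have h6 : D ^ (j - i) ≤ D ^ L := pow_le_pow_right₀ hD1 (by omega)
      gcongr
    have h7 := hB i (by omega) ζ
    rw [mul_assoc]
    gcongr
    exact h3.trans h4
  refine (Finset.sum_le_sum h2).trans ?_
  rw [← Finset.sum_mul]
  have h3 : ∑ i ∈ Finset.range (j + 1), ((j.choose i : ℕ) : ℝ) = 2 ^ j := by
    exact_mod_cast Nat.sum_range_choose j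
  rw [h3]
  have h4 : (2 : ℝ) ^ j ≤ 2 ^ L := pow_le_pow_right₀ (by norm_num) hj
  gcongr

theorem pf_BPD : T_BPD := by
  intro m L χ hχ hχs
  -- cutoffs
  let S : ContDiffBump (16 : ℝ) := ⟨16 - 1 / 16, 16 - 1 / 32, by norm_num, by norm_num⟩
  let T : ContDiffBump (0 : E m) := ⟨17, 18, by norm_num, by norm_num⟩
  let T' : ContDiffBump (0 : E m) := ⟨16, 17, by norm_num, by norm_num⟩
  have hS0 : ∀ a : ℝ, a ≤ 1 / 32 → S a = 0 := fun a ha => by
    apply S.zero_of_le_dist
    rw [Real.dist_eq, abs_sub_comm, abs_of_nonneg (by linarith)]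
    show (16 : ℝ) - 1 / 32 ≤ 16 - a
    linarith
  have hS1 : ∀ a : ℝ, 1 / 16 ≤ a → a ≤ 16 → S a = 1 := fun a ha ha' => by
    apply S.one_of_mem_closedBall
    rw [Metric.mem_closedBall, Real.dist_eq, abs_sub_comm, abs_of_nonneg (by linarith)]
    show (16 : ℝ) - a ≤ 16 - 1 / 16
    linarith
  -- the function θ
  set θ : ℝ → ℝ := fun a => S a * a⁻¹ with hθ
  have hθs : ContDiff ℝ (⊤ : ℕ∞) θ := by
    rw [contDiff_iff_contDiffAt]
    intro a
    rcases lt_or_ge (1 / 64) a with ha | ha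
    · exact S.contDiff.contDiffAt.mul (contDiffAt_inv ℝ (by linarith : (0 : ℝ) < a).ne')
    · refine ContDiffAt.congr_of_eventuallyEq (f := fun _ => (0 : ℝ)) contDiffAt_const ?_
      have h1 : Iio (1 / 32 : ℝ) ∈ nhds a := Iio_mem_nhds (by linarith)
      filter_upwards [h1] with b hb
      rw [hθ]
      simp only
      rw [hS0 b (le_of_lt hb), zero_mul]
  set h : ℝ × E m → E m := fun ζ => (θ ζ.1 * T ζ.2) • ζ.2 with hh
  have hhs : ContDiff ℝ (⊤ : ℕ∞) h :=
    ((hθs.comp contDiff_fst).mul (T.contDiff.comp contDiff_snd)).smul contDiff_snd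
  have hhc : HasCompactSupport h := by
    refine HasCompactSupport.intro ((isCompact_closedBall (16 : ℝ) 16).prod
      (isCompact_closedBall (0 : E m) 18)) ?_
    intro ζ hζ
    rw [hh]
    simp only
    by_cases h1 : ζ.1 ∈ Metric.closedBall (16 : ℝ) 16
    · have h2 : ζ.2 ∉ Metric.closedBall (0 : E m) 18 := fun h2 => hζ ⟨h1, h2⟩
      have h3 : T ζ.2 = 0 := by
        apply T.zero_of_le_dist
        rw [Metric.mem_closedBall, not_le] at h2
        exact h2.le
      rw [h3, mul_zero, zero_smul]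
    · have h3 : S ζ.1 = 0 := by
        apply S.zero_of_le_dist
        rw [Metric.mem_closedBall, not_le] at h1
        refine le_trans ?_ h1.le
        show (16 : ℝ) - 1 / 32 ≤ 16
        norm_num
      have h4 : θ ζ.1 = 0 := by
        rw [hθ]
        simp only
        rw [h3, zero_mul]
      rw [h4, zero_mul, zero_smul]
  set X : ℝ × E m → ℂ := fun ζ => (χ ζ.1 : ℂ) * (T' ζ.2 : ℂ) with hX
  have hXs : ContDiff ℝ (⊤ : ℕ∞) X := by
    have h1 : ContDiff ℝ (⊤ : ℕ∞) (fun ζ : ℝ × E m => (χ ζ.1 : ℂ)) :=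
      Complex.ofRealCLM.contDiff.comp (hχ.comp contDiff_fst)
    have h2 : ContDiff ℝ (⊤ : ℕ∞) (fun ζ : ℝ × E m => (T' ζ.2 : ℂ)) :=
      Complex.ofRealCLM.contDiff.comp (T'.contDiff.comp contDiff_snd)
    exact h1.mul h2
  have hXc : HasCompactSupport X := by
    refine HasCompactSupport.intro ((isCompact_closedBall (0 : ℝ) 16).prod
      (isCompact_closedBall (0 : E m) 17)) ?_
    intro ζ hζ
    rw [hX]
    simp only
    by_cases h1 : ζ.1 ∈ Metric.closedBall (0 : ℝ) 16
    · have h2 : ζ.2 ∉ Metric.closedBall (0 : E m) 17 := fun h2 => hζ ⟨h1, h2⟩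
      have h3 : T' ζ.2 = 0 := by
        apply T'.zero_of_le_dist
        rw [Metric.mem_closedBall, not_le] at h2
        exact h2.le
      rw [h3, Complex.ofReal_zero, mul_zero]
    · have h3 : χ ζ.1 = 0 := by
        by_contra h4
        apply h1
        obtain ⟨h5, h6⟩ := hχs _ h4
        rw [Metric.mem_closedBall, Real.dist_eq, sub_zero, abs_of_nonneg (by linarith)]
        exact h6
      rw [h3, Complex.ofReal_zero, zero_mul]
  obtain ⟨B, hB1, hB⟩ := bdd_der X hXs hXc L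
  obtain ⟨D, hD1, hD⟩ := bdd_der h hhs hhc L
  refine ⟨2 ^ L * (B * (L.factorial * D ^ L)), by positivity, fun φ hφ => ?_⟩
  have hkey : (fun ζ : ℝ × E m => (χ ζ.1 : ℂ) * φ (ζ.1⁻¹ • ζ.2)) = fun ζ => X ζ * φ (h ζ) := by
    ext ζ
    by_cases hc : χ ζ.1 = 0
    · rw [hX]
      simp [hc]
    · obtain ⟨h5, h6⟩ := hχs _ hc
      have hpos : 0 < ζ.1 := by linarith
      have hθ1 : θ ζ.1 = ζ.1⁻¹ := by
        rw [hθ]
        simp only
        rw [hS1 _ (by linarith) h6, one_mul]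
      by_cases hξ : ‖ζ.2‖ ≤ 16
      · have h7 : T ζ.2 = 1 := by
          apply T.one_of_mem_closedBall
          rw [Metric.mem_closedBall, dist_zero_right]
          show ‖ζ.2‖ ≤ 17
          linarith
        have h8 : T' ζ.2 = 1 := by
          apply T'.one_of_mem_closedBall
          rw [Metric.mem_closedBall, dist_zero_right]
          exact hξ
        simp only [hX, hh]
        rw [h7, h8, hθ1, mul_one, Complex.ofReal_one, mul_one]
      · push Not at hξ
        have hbig : φ (ζ.1⁻¹ • ζ.2) = 0 := by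
          apply hφ.2.1
          rw [norm_smul, norm_inv, Real.norm_of_nonneg hpos.le, ← div_eq_inv_mul,
            one_le_div hpos]
          linarith
        rw [hbig, mul_zero]
        by_cases h17 : ‖ζ.2‖ ≤ 17
        · have h7 : T ζ.2 = 1 := by
            apply T.one_of_mem_closedBall
            rw [Metric.mem_closedBall, dist_zero_right]
            exact h17
          simp only [hh]
          rw [h7, hθ1, mul_one, hbig, mul_zero]
        · push Not at h17
          have h8 : T' ζ.2 = 0 := by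
            apply T'.zero_of_le_dist
            rw [dist_zero_right]
            exact h17.le
          simp only [hX]
          rw [h8, Complex.ofReal_zero, mul_zero, zero_mul]
  refine ⟨?_, ?_, ?_⟩
  · rw [hkey]
    exact hXs.mul (hφ.1.comp hhs)
  · intro ζ hζ
    have h1 : χ ζ.1 ≠ 0 := fun h1 => hζ (by rw [h1, Complex.ofReal_zero, zero_mul])
    have h2 : φ (ζ.1⁻¹ • ζ.2) ≠ 0 := right_ne_zero_of_mul hζ
    obtain ⟨h5, h6⟩ := hχs _ h1
    have hpos : 0 < ζ.1 := by linarith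
    have h3 : ‖ζ.2‖ ≤ 16 := by
      by_contra h4
      push Not at h4
      apply h2
      apply hφ.2.1
      rw [norm_smul, norm_inv, Real.norm_of_nonneg hpos.le, ← div_eq_inv_mul, one_le_div hpos]
      linarith
    rw [Prod.norm_def]
    apply max_le
    · rw [Real.norm_of_nonneg hpos.le]
      exact h6
    · exact h3
  · intro j hj ζ
    rw [hkey]
    exact comp_bd X h φ hXs hhs hφ hB1 hD1 hB hD j hj ζ

end Pool.Agent.H63.G
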