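import Pool.Agent.H83.G.Targets2

/-!
# MP_ee74d2_an, board `g_modules`: module ENS
-/

set_option autoImplicit false

namespace Pool.Agent.H63.G

open MeasureTheory Set Pool.Agent.H83.G
open scoped ENNReal NNReal RealInnerProductSpace ContDiff

private lemma wt_neg {m : ℕ} (N : ℕ) (z : Z m) : wt N (-z) = wt N z := by
  unfold wt
  rw [norm_neg]

private lemma sum_sq_le {ι : Type*} (S : Finset ι) (f : ι → ℂ)
    (hf : ∀ k, ∃ r : ℝ, 0 ≤ r ∧ r ≤ 1 ∧ f k = (r : ℂ)) (h : HasSum f 1) :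
    ∑ k ∈ S, ‖f k‖ₑ ^ 2 ≤ 1 := by
  choose r hr0 hr1 hr using hf
  have h1 : HasSum (fun k => (r k : ℂ)) ((1 : ℝ) : ℂ) := by
    have : (fun k => (r k : ℂ)) = f := funext fun k => (hr k).symm
    rw [this]
    simpa using h
  have h2 : HasSum r 1 := Complex.hasSum_ofReal.1 h1
  have h3 : ∑ k ∈ S, r k ≤ 1 := sum_le_hasSum S (fun k _ => hr0 k) h2
  have h4 : ∀ k, ‖f k‖ₑ ^ 2 ≤ ENNReal.ofReal (r k) := by
    intro k
    rw [hr k, ← ofReal_norm, ← ENNReal.ofReal_pow (norm_nonneg _)]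
    apply ENNReal.ofReal_le_ofReal
    rw [Complex.norm_real, Real.norm_of_nonneg (hr0 k)]
    nlinarith [hr0 k, hr1 k]
  calc ∑ k ∈ S, ‖f k‖ₑ ^ 2 ≤ ∑ k ∈ S, ENNReal.ofReal (r k) := Finset.sum_le_sum fun k _ => h4 k
    _ = ENNReal.ofReal (∑ k ∈ S, r k) := (ENNReal.ofReal_sum_of_nonneg fun k _ => hr0 k).symm
    _ ≤ 1 := by
        rw [← ENNReal.ofReal_one]
        exact ENNReal.ofReal_le_ofReal h3

theorem pf_ENS (hWT3 : T_WT3) (hPLN : T_PLN) (hPUS : T_PUS) (hCPS : T_CPS) (hWT1 : T_WT1)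
    (hSCH : T_SCH) : T_ENS := by
  intro m N β δ hβ hδ hN
  obtain ⟨C, hC, -⟩ := hWT3 m N hN
  have hm : (0 : ℝ) < (m : ℝ) + 1 := by positivity
  refine ⟨(C : ℝ) * ((m : ℝ) + 1) ^ (m + 2) + 1, by positivity, fun R G hR hG hsupp => ?_⟩
  have hR0 : 0 < R := lt_of_lt_of_le one_pos hR
  have hs : 0 < sR R := by unfold sR; positivity
  set s := sR R with hsdef
  have hquarter : ∀ ζ, G ζ ≠ 0 → 1 / 4 ≤ ζ.1 := fun ζ hζ => by
    have h := (hsupp ζ hζ).1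
    linarith
  have hTC : ∀ k, TC (fun ζ => cp β (ctr s k) s ζ * G ζ) := fun k =>
    hCPS m β (ctr s k) s G hβ.1 hs hG hquarter
  have hcont : ∀ k, Continuous fun z => TP β (ctr s k) s G z := fun k => (hSCH m _ (hTC k)).1
  have hmeas : ∀ k, Measurable fun z => ‖TP β (ctr s k) s G z‖ₑ ^ 2 := fun k =>
    ((hcont k).measurable.enorm).pow_const 2
  have hwcont : Continuous (wt N : Z m → ℝ) := (hWT1 m N).2.1
  -- sums of the weights
  have hc0 : 0 < R ^ (-(2 * δ)) / ((m : ℝ) + 1) := by positivity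
  have hc1 : R ^ (-(2 * δ)) / ((m : ℝ) + 1) ≤ 1 := by
    rw [div_le_one hm]
    have h1 : R ^ (-(2 * δ)) ≤ 1 := Real.rpow_le_one_of_one_le_of_nonpos hR (by linarith)
    have h2 : (0 : ℝ) ≤ m := Nat.cast_nonneg m
    linarith
  have hsum : ∀ z : Z m, ∑' j : Zi m, ENNReal.ofReal
      (wt N (R ^ (-(1 + 2 * δ)) • (z - (R / ((m : ℝ) + 1)) • zc j))) ≤
      C * ENNReal.ofReal (((R ^ (-(2 * δ)) / ((m : ℝ) + 1))⁻¹) ^ (m + 2)) := by
    intro z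
    have h1 := hC (R ^ (-(2 * δ)) / ((m : ℝ) + 1)) (R ^ (-(1 + 2 * δ)) • z) hc0 hc1
    refine le_trans (le_of_eq ?_) h1
    refine tsum_congr fun j => ?_
    rw [← wt_neg N ((R ^ (-(2 * δ)) / ((m : ℝ) + 1)) • zc j - _)]
    congr 2
    rw [neg_sub, smul_sub, smul_smul]
    congr 2
    have h2 : R ^ (-(1 + 2 * δ)) * R = R ^ (-(2 * δ)) := by
      have h3 : R ^ (-(1 + 2 * δ)) * R = R ^ (-(1 + 2 * δ)) * R ^ (1 : ℝ) := by
        rw [Real.rpow_one]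
      rw [h3, ← Real.rpow_add hR0]
      congr 1
      ring
    rw [mul_div_assoc', h2]
  set K : ℝ≥0∞ := C * ENNReal.ofReal (((R ^ (-(2 * δ)) / ((m : ℝ) + 1))⁻¹) ^ (m + 2)) with hK
  -- the energy
  have hen : ∑ k ∈ Ks m s, ∫⁻ z, ‖TP β (ctr s k) s G z‖ₑ ^ 2 ≤
      ENNReal.ofReal (∫ ζ, ‖G ζ‖ ^ 2) := by
    have h1 : ∀ k, ∫⁻ z, ‖TP β (ctr s k) s G z‖ₑ ^ 2 =
        ∫⁻ ζ, ‖cp β (ctr s k) s ζ * G ζ‖ₑ ^ 2 := fun k => by
      have h2 := hPLN m _ (hTC k)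
      exact h2.1.trans h2.2.symm
    simp_rw [h1]
    rw [← (hPLN m G hG).2, ← lintegral_finsetSum]
    · refine lintegral_mono fun ζ => ?_
      simp only [enorm_mul, mul_pow]
      rw [← Finset.sum_mul]
      calc (∑ k ∈ Ks m s, ‖cp β (ctr s k) s ζ‖ₑ ^ 2) * ‖G ζ‖ₑ ^ 2 ≤ 1 * ‖G ζ‖ₑ ^ 2 := by
            gcongr
            refine sum_sq_le (Ks m s) (fun k => cp β (ctr s k) s ζ) (fun k => hβ.2.2.1 _) ?_
            exact ((hPUS m).1 β s hβ hs).1 (ζ.1⁻¹ • ζ.2.1)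
        _ = ‖G ζ‖ₑ ^ 2 := one_mul _
    · intro k _
      exact ((hTC k).1.continuous.measurable.enorm).pow_const 2
  -- main computation
  have hmain : ∑' j : Zi m, Er N β R δ G ((R / ((m : ℝ) + 1)) • zc j) ≤
      K * ENNReal.ofReal (∫ ζ, ‖G ζ‖ ^ 2) := by
    unfold Er
    rw [← hsdef]
    rw [Summable.tsum_finsetSum fun k _ => ENNReal.summable]
    calc ∑ k ∈ Ks m s, ∑' j : Zi m, ∫⁻ z, ‖TP β (ctr s k) s G z‖ₑ ^ 2 * ENNReal.ofReal
          (wt N (R ^ (-(1 + 2 * δ)) • (z - (R / ((m : ℝ) + 1)) • zc j)))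
        ≤ ∑ k ∈ Ks m s, K * ∫⁻ z, ‖TP β (ctr s k) s G z‖ₑ ^ 2 := by
          refine Finset.sum_le_sum fun k _ => ?_
          rw [← lintegral_tsum]
          · rw [← lintegral_const_mul _ (hmeas k)]
            refine lintegral_mono fun z => ?_
            simp only
            rw [ENNReal.tsum_mul_left, mul_comm K]
            gcongr
            exact hsum z
          · intro j
            refine ((hmeas k).mul ?_).aemeasurable
            apply ENNReal.measurable_ofReal.comp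
            apply hwcont.measurable.comp
            fun_prop
      _ = K * ∑ k ∈ Ks m s, ∫⁻ z, ‖TP β (ctr s k) s G z‖ₑ ^ 2 := by rw [Finset.mul_sum]
      _ ≤ K * ENNReal.ofReal (∫ ζ, ‖G ζ‖ ^ 2) := by gcongr
  refine hmain.trans ?_
  have hI : 0 ≤ ∫ ζ, ‖G ζ‖ ^ 2 := integral_nonneg fun ζ => by positivity
  have hK2 : K ≤ ENNReal.ofReal (((C : ℝ) * ((m : ℝ) + 1) ^ (m + 2) + 1) * R ^ (lo m * δ)) := by
    rw [hK, ← ENNReal.ofReal_coe_nnreal, ← ENNReal.ofReal_mul C.coe_nonneg]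
    apply ENNReal.ofReal_le_ofReal
    have h1 : (((R ^ (-(2 * δ)) / ((m : ℝ) + 1))⁻¹) ^ (m + 2)) =
        ((m : ℝ) + 1) ^ (m + 2) * R ^ (2 * δ * ((m : ℝ) + 2)) := by
      rw [inv_div, div_eq_mul_inv, ← Real.rpow_neg hR0.le, neg_neg, mul_pow,
        ← Real.rpow_natCast (R ^ (2 * δ)), ← Real.rpow_mul hR0.le]
      push_cast
      rfl
    have h2 : R ^ (2 * δ * ((m : ℝ) + 2)) ≤ R ^ (lo m * δ) := by
      apply Real.rpow_le_rpow_of_exponent_le hR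
      unfold lo
      have h3 : 0 ≤ δ * ((m : ℝ) + 2) := by positivity
      nlinarith
    rw [h1]
    have h4 : 0 < R ^ (lo m * δ) := by positivity
    calc (C : ℝ) * (((m : ℝ) + 1) ^ (m + 2) * R ^ (2 * δ * ((m : ℝ) + 2)))
        ≤ (C : ℝ) * (((m : ℝ) + 1) ^ (m + 2) * R ^ (lo m * δ)) := by gcongr
      _ ≤ ((C : ℝ) * ((m : ℝ) + 1) ^ (m + 2) + 1) * R ^ (lo m * δ) := by nlinarith
  calc K * ENNReal.ofReal (∫ ζ, ‖G ζ‖ ^ 2)
      ≤ ENNReal.ofReal (((C : ℝ) * ((m : ℝ) + 1) ^ (m + 2) + 1) * R ^ (lo m * δ)) *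
        ENNReal.ofReal (∫ ζ, ‖G ζ‖ ^ 2) := by gcongr
    _ = ENNReal.ofReal (((C : ℝ) * ((m : ℝ) + 1) ^ (m + 2) + 1) * R ^ (lo m * δ) *
        ∫ ζ, ‖G ζ‖ ^ 2) := (ENNReal.ofReal_mul (by positivity)).symm

end Pool.Agent.H63.G
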