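import Pool.Agent.H83.G.Targets1

/-!
# MP_ee74d2_an, board `g_modules`: module MOD
-/

set_option autoImplicit false

namespace Pool.Agent.H63.G

open MeasureTheory Set Pool.Agent.H83.G
open scoped ENNReal NNReal RealInnerProductSpace ContDiff Convolution

private lemma e_add (a b : ℝ) : e (a + b) = e a * e b := by
  unfold e
  rw [← Complex.exp_add]
  congr 1
  push_cast
  ring

private lemma contDiff_e : ContDiff ℝ (⊤ : ℕ∞) e := by
  unfold e
  have h : ContDiff ℝ (⊤ : ℕ∞) fun x : ℝ => (((2 * Real.pi * x : ℝ) : ℂ) * Complex.I) := by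
    have h1 : ContDiff ℝ (⊤ : ℕ∞) fun x : ℝ => (2 * Real.pi * x : ℝ) := by fun_prop
    exact (Complex.ofRealCLM.contDiff.comp h1).mul contDiff_const
  exact Complex.contDiff_exp.comp h

private lemma ph_add_right {m : ℕ} (z ζ ζ' : Z m) : ph z (ζ + ζ') = ph z ζ + ph z ζ' := by
  unfold ph
  simp only [Prod.fst_add, Prod.snd_add, inner_add_right]
  ring

private lemma ph_sub_left {m : ℕ} (z z' ζ : Z m) : ph (z - z') ζ = ph z ζ - ph z' ζ := by
  unfold ph
  simp only [Prod.fst_sub, Prod.snd_sub, inner_sub_left]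
  ring

private lemma ph_smul {m : ℕ} (c : ℝ) (z ζ : Z m) : ph (c • z) ζ = ph z (c • ζ) := by
  unfold ph
  simp only [Prod.smul_fst, Prod.smul_snd, inner_smul_left, inner_smul_right, smul_eq_mul]
  simp
  ring

private lemma contDiff_ph {m : ℕ} (z : Z m) : ContDiff ℝ (⊤ : ℕ∞) (fun ζ : Z m => ph z ζ) := by
  unfold ph
  have h1 : ContDiff ℝ (⊤ : ℕ∞) (fun ζ : Z m => z.1 * ζ.1) := by fun_prop
  have h2 : ContDiff ℝ (⊤ : ℕ∞) (fun ζ : Z m => ⟪z.2.1, ζ.2.1⟫) :=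
    contDiff_const.inner ℝ (contDiff_fst.comp contDiff_snd)
  have h3 : ContDiff ℝ (⊤ : ℕ∞) (fun ζ : Z m => z.2.2 * ζ.2.2) := by fun_prop
  exact (h1.add h2).add h3

private instance haarZ (m : ℕ) : (volume : Measure (Z m)).IsAddHaarMeasure :=
  Measure.prod.instIsAddHaarMeasure (volume : Measure ℝ)
    ((volume : Measure (E m)).prod (volume : Measure ℝ))

private lemma TC.mul_e {m : ℕ} {Ψ : Z m → ℂ} (hΨ : TC Ψ) (z : Z m) :
    TC (fun ζ => e (ph z ζ) * Ψ ζ) :=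
  ⟨(contDiff_e.comp (contDiff_ph z)).mul hΨ.1, hΨ.2.mul_left⟩

private lemma tcint {m : ℕ} {Ψ : Z m → ℂ} (hΨ : TC Ψ) : Integrable Ψ :=
  hΨ.1.continuous.integrable_of_hasCompactSupport hΨ.2

private lemma TF_conv {m : ℕ} {f g : Z m → ℂ} (hf : TC f) (hg : TC g) (z : Z m) :
    TF (f ⋆[ContinuousLinearMap.mul ℝ ℂ, volume] g) z = TF f z * TF g z := by
  have h1 := integral_convolution (ContinuousLinearMap.mul ℝ ℂ) (tcint (TC.mul_e hf z))
    (tcint (TC.mul_e hg z)) (μ := (volume : Measure (Z m))) (ν := (volume : Measure (Z m)))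
  unfold TF
  rw [ContinuousLinearMap.mul_apply'] at h1
  rw [← h1]
  congr 1
  ext ζ
  unfold convolution
  rw [← integral_const_mul]
  congr 1
  ext t
  simp only [ContinuousLinearMap.mul_apply']
  have h2 : ph z ζ = ph z t + ph z (ζ - t) := by
    rw [← ph_add_right]
    congr 1
    abel
  rw [h2, e_add]
  ring

theorem pf_MOD (hLOA : T_LOA) (hLOI : T_LOI) : T_MOD := by
  intro m G Ψ η s c x hG hΨ hs hc
  obtain ⟨h1, h2, h3, h4, h5, h6⟩ := hLOA m
  set η' : E m := -(s⁻¹ • η) with hη'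
  have hinv1 : ∀ z : Z m, Ld η s (Ld η' s⁻¹ z) = z := by
    intro z
    rw [(h4 η η' s s⁻¹ z).2, hη', smul_neg, smul_smul, mul_inv_cancel₀ hs.ne', one_smul,
      add_neg_cancel]
    exact (h5 z).2
  have hinv2 : ∀ z : Z m, Ld η' s⁻¹ (Ld η s z) = z := by
    intro z
    rw [(h4 η' η s⁻¹ s z).2, hη', inv_mul_cancel₀ hs.ne', neg_add_cancel]
    exact (h5 z).2
  have hsm1 : ContDiff ℝ (⊤ : ℕ∞) (Ld η s) := (hLOI m η s hs).2.2.2.2.2
  have hsm2 : ContDiff ℝ (⊤ : ℕ∞) (Ld η' s⁻¹) := (hLOI m η' s⁻¹ (inv_pos.2 hs)).2.2.2.2.2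
  have hcs1 : ContDiff ℝ (⊤ : ℕ∞) (fun y : Z m => c⁻¹ • y) := contDiff_const_smul _
  have hcs2 : ContDiff ℝ (⊤ : ℕ∞) (fun y : Z m => c • Ld η s y) := hsm1.const_smul c
  have hcs3 : ContDiff ℝ (⊤ : ℕ∞) (fun y : Z m => Ld η' s⁻¹ (c⁻¹ • y)) := hsm2.comp hcs1
  let Φ : Z m ≃ₜ Z m :=
    { toFun := fun y => Ld η' s⁻¹ (c⁻¹ • y)
      invFun := fun y => c • Ld η s y
      left_inv := fun y => by
        simp only
        rw [hinv1, smul_smul, mul_inv_cancel₀ hc.ne', one_smul]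
      right_inv := fun y => by
        simp only
        rw [smul_smul, inv_mul_cancel₀ hc.ne', one_smul, hinv2]
      continuous_toFun := hcs3.continuous
      continuous_invFun := hcs2.continuous }
  set Ψ₂ : Z m → ℂ := fun ζ => e (ph (-x) ζ) * Ψ ζ with hΨ₂
  have hTC2 : TC Ψ₂ := TC.mul_e hΨ (-x)
  set Ψ₁ : Z m → ℂ := fun y => Ψ₂ (Ld η' s⁻¹ (c⁻¹ • y)) with hΨ₁
  have hTC1 : TC Ψ₁ := ⟨hTC2.1.comp hcs3, hTC2.2.comp_homeomorph Φ⟩
  set κ : ℂ := (((s⁻¹) ^ (m + 2) : ℝ) : ℂ) * (((c ^ (m + 2))⁻¹ : ℝ) : ℂ) with hκ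
  have hsub : ∀ F : Z m → ℂ, ∫ ζ, F (c • Ld η s ζ) = κ * ∫ y, F y := by
    intro F
    have h7 := (hLOI m η s hs).2.2.1 (fun y => F (c • y))
    rw [h7]
    have h8 := Measure.integral_comp_smul (volume : Measure (Z m)) F c
    have h9 : Module.finrank ℝ (Z m) = m + 2 := by
      rw [Module.finrank_prod, Module.finrank_prod, finrank_euclideanSpace]
      simp
      ring
    rw [h8, h9, hκ, abs_of_pos (by positivity), Complex.real_smul]
    ring
  refine ⟨fun ζ => κ * (Ψ₁ ⋆[ContinuousLinearMap.mul ℝ ℂ, volume] G) ζ, ?_, ?_, ?_⟩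
  · refine ⟨?_, ?_⟩
    · exact contDiff_const.mul (hG.2.contDiff_convolution_right (ContinuousLinearMap.mul ℝ ℂ)
        (tcint hTC1).locallyIntegrable hG.1)
    · exact (hTC1.2.convolution (ContinuousLinearMap.mul ℝ ℂ) hG.2).mul_left
  · intro z
    have h7 : TF (fun ζ => κ * (Ψ₁ ⋆[ContinuousLinearMap.mul ℝ ℂ, volume] G) ζ) z =
        κ * TF (Ψ₁ ⋆[ContinuousLinearMap.mul ℝ ℂ, volume] G) z := by
      unfold TF
      rw [← integral_const_mul]
      congr 1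
      ext ζ
      ring
    rw [h7, TF_conv hTC1 hG]
    have h8 : TF Ψ (c • Lo η s z - x) = κ * TF Ψ₁ z := by
      unfold TF
      rw [← hsub]
      congr 1
      ext ζ
      simp only [hΨ₁, hΨ₂]
      rw [smul_smul, inv_mul_cancel₀ hc.ne', one_smul, hinv2, ← ph_smul, h3,
        (h2 η s c z).1, ph_sub_left, sub_eq_add_neg, e_add]
      have h9 : ph (-x) ζ = -ph x ζ := by
        have := ph_sub_left 0 x ζ
        rw [zero_sub] at this
        rw [this]
        unfold ph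
        simp
      rw [h9]
      ring
    rw [h8]
    ring
  · intro ζ hζ
    have h7 : (Ψ₁ ⋆[ContinuousLinearMap.mul ℝ ℂ, volume] G) ζ ≠ 0 := right_ne_zero_of_mul hζ
    have h8 : ∃ t, Ψ₁ t ≠ 0 ∧ G (ζ - t) ≠ 0 := by
      by_contra hcon
      push Not at hcon
      apply h7
      unfold convolution
      have : (fun t => (ContinuousLinearMap.mul ℝ ℂ) (Ψ₁ t) (G (ζ - t))) = fun _ => 0 := by
        ext t
        simp only [ContinuousLinearMap.mul_apply']
        by_cases ht : Ψ₁ t = 0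
        · rw [ht, zero_mul]
        · rw [hcon t ht, mul_zero]
      rw [this, integral_zero]
    obtain ⟨t, ht1, ht2⟩ := h8
    refine ⟨ζ - t, Ld η' s⁻¹ (c⁻¹ • t), ht2, right_ne_zero_of_mul ht1, ?_⟩
    rw [hinv1, smul_smul, mul_inv_cancel₀ hc.ne', one_smul, sub_add_cancel]

end Pool.Agent.H63.G
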