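import Pool.Agent.H83.G.Targets1

/-!
# MP_ee74d2_an, board `g_modules`: module PUS
-/

set_option autoImplicit false

namespace Pool.Agent.H63.G

open MeasureTheory Set Pool.Agent.H83.G
open scoped ENNReal NNReal RealInnerProductSpace ContDiff

lemma ctr_apply {m : ℕ} (s : ℝ) (k : Fin m → ℤ) (i : Fin m) :
    ctr s k i = s / ((m : ℝ) + 1) * k i := by
  unfold ctr
  simp

lemma ctr_scale {m : ℕ} {s : ℝ} (hs : 0 < s) (k : Fin m → ℤ) (x : E m) :
    s⁻¹ • (x - ctr s k) = s⁻¹ • x - ctr 1 k := by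
  rw [smul_sub]
  congr 1
  unfold ctr
  rw [smul_smul]
  congr 1
  field_simp

lemma notMem_Ks {m : ℕ} {s : ℝ} (hs : 0 < s) {k : Fin m → ℤ} (hk : k ∉ Ks m s) :
    3 < ‖ctr s k‖ := by
  unfold Ks at hk
  rw [Fintype.mem_piFinset] at hk
  push Not at hk
  obtain ⟨i, hi⟩ := hk
  have hm : (0 : ℝ) < (m : ℝ) + 1 := by positivity
  have h1 : 3 * ((m : ℝ) + 1) / s < |(k i : ℝ)| := by
    rw [Finset.mem_Icc, not_and_or] at hi
    have h2 := Int.le_ceil (3 * ((m : ℝ) + 1) / s)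
    rcases hi with h | h
    · have h3 : k i + 1 ≤ -⌈3 * ((m : ℝ) + 1) / s⌉ := by omega
      have h4 : (k i : ℝ) + 1 ≤ -(⌈3 * ((m : ℝ) + 1) / s⌉ : ℝ) := by exact_mod_cast h3
      rw [lt_abs]
      right
      linarith
    · have h3 : ⌈3 * ((m : ℝ) + 1) / s⌉ + 1 ≤ k i := by omega
      have h4 : (⌈3 * ((m : ℝ) + 1) / s⌉ : ℝ) + 1 ≤ k i := by exact_mod_cast h3
      rw [lt_abs]
      left
      linarith
  have h2 : ‖ctr s k i‖ ≤ ‖ctr s k‖ := PiLp.norm_apply_le _ _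
  rw [ctr_apply, norm_mul, Real.norm_of_nonneg (by positivity), Real.norm_eq_abs] at h2
  refine lt_of_lt_of_le ?_ h2
  have h3 : s / ((m : ℝ) + 1) * (3 * ((m : ℝ) + 1) / s) = 3 := by
    field_simp
  rw [← h3]
  exact mul_lt_mul_of_pos_left h1 (by positivity)

theorem pf_PUS : T_PUS := by
  intro m
  have hm : (0 : ℝ) < (m : ℝ) + 1 := by positivity
  have hm0 : (0 : ℝ) ≤ (m : ℝ) := Nat.cast_nonneg m
  refine ⟨fun β s hβ hs => ?_, fun s k hs hk => notMem_Ks hs hk,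
    (6 * m + 9) ^ m + (2 * m + 3) ^ m + 4 * (m + 1), by positivity, ?_, ?_, ?_⟩
  · have h1 : ∀ x : E m, HasSum (fun k => β (s⁻¹ • (x - ctr s k))) 1 := by
      intro x
      have h2 := hβ.2.2.2 (s⁻¹ • x)
      have h3 : (fun k => β (s⁻¹ • (x - ctr s k))) = fun k => β (s⁻¹ • x - ctr 1 k) :=
        funext fun k => by rw [ctr_scale hs]
      rw [h3]
      exact h2
    refine ⟨h1, fun hs1 ζ hζ => ?_⟩
    have h2 := h1 (ζ.1⁻¹ • ζ.2.1)
    have h3 : HasSum (fun k => β (s⁻¹ • (ζ.1⁻¹ • ζ.2.1 - ctr s k)))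
        (∑ k ∈ Ks m s, β (s⁻¹ • (ζ.1⁻¹ • ζ.2.1 - ctr s k))) := by
      refine hasSum_sum_of_ne_finset_zero fun k hk => ?_
      apply hβ.2.1
      have h4 := notMem_Ks hs hk
      rw [norm_smul, norm_inv, Real.norm_of_nonneg hs.le]
      have h5 : 1 ≤ s⁻¹ := (one_le_inv₀ hs).2 hs1
      have h6 : 1 ≤ ‖ζ.1⁻¹ • ζ.2.1 - ctr s k‖ := by
        have h7 := norm_sub_norm_le (ctr s k) (ζ.1⁻¹ • ζ.2.1)
        rw [norm_sub_rev] at h7
        linarith
      nlinarith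
    exact h3.unique h2
  · intro s hs hs1
    have hsi : 1 ≤ s⁻¹ := (one_le_inv₀ hs).2 hs1
    unfold Ks
    rw [Fintype.card_piFinset_const, Int.card_Icc]
    have h1 : (((⌈3 * ((m : ℝ) + 1) / s⌉ + 1 - -⌈3 * ((m : ℝ) + 1) / s⌉).toNat : ℕ) : ℝ) ≤
        (6 * m + 9) * s⁻¹ := by
      have h2 : 0 ≤ ⌈3 * ((m : ℝ) + 1) / s⌉ := Int.ceil_nonneg (by positivity)
      have h3 : (((⌈3 * ((m : ℝ) + 1) / s⌉ + 1 - -⌈3 * ((m : ℝ) + 1) / s⌉).toNat : ℕ) : ℝ) =
          2 * (⌈3 * ((m : ℝ) + 1) / s⌉ : ℝ) + 1 := by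
        have h4 : (((⌈3 * ((m : ℝ) + 1) / s⌉ + 1 - -⌈3 * ((m : ℝ) + 1) / s⌉).toNat : ℕ) : ℤ) =
            2 * ⌈3 * ((m : ℝ) + 1) / s⌉ + 1 := by
          rw [Int.toNat_of_nonneg (by omega)]
          ring
        exact_mod_cast h4
      rw [h3]
      have h5 := Int.ceil_lt_add_one (3 * ((m : ℝ) + 1) / s)
      rw [div_eq_mul_inv] at h5 ⊢
      nlinarith
    push_cast
    calc ((((⌈3 * ((m : ℝ) + 1) / s⌉ + 1 - -⌈3 * ((m : ℝ) + 1) / s⌉).toNat : ℕ) : ℝ)) ^ m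
        ≤ ((6 * m + 9) * s⁻¹) ^ m := pow_le_pow_left₀ (Nat.cast_nonneg _) h1 m
      _ = (6 * m + 9) ^ m * (s⁻¹) ^ m := mul_pow _ _ _
      _ ≤ ((6 * m + 9) ^ m + (2 * m + 3) ^ m + 4 * (m + 1)) * (s⁻¹) ^ m := by
          refine mul_le_mul_of_nonneg_right ?_ (by positivity)
          have : (0 : ℝ) ≤ (2 * m + 3) ^ m + 4 * (m + 1) := by positivity
          linarith
  · intro s ρ x J hs hρ hJ
    obtain ⟨a, ha⟩ : ∃ a : ℝ, a = ((m : ℝ) + 1) * ρ / s := ⟨_, rfl⟩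
    have ha0 : 0 ≤ a := by rw [ha]; positivity
    have hsub : J ⊆ Fintype.piFinset fun i : Fin m =>
        Finset.Icc ⌈((m : ℝ) + 1) * x i / s - a⌉ ⌊((m : ℝ) + 1) * x i / s + a⌋ := by
      intro k hk
      rw [Fintype.mem_piFinset]
      intro i
      have h1 : ‖(ctr s k - x) i‖ ≤ ρ := (PiLp.norm_apply_le _ _).trans (hJ k hk)
      rw [PiLp.sub_apply, ctr_apply, Real.norm_eq_abs] at h1
      have h2 : |(k i : ℝ) - ((m : ℝ) + 1) * x i / s| ≤ a := by
        have h3 : (k i : ℝ) - ((m : ℝ) + 1) * x i / s =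
            ((m : ℝ) + 1) / s * (s / ((m : ℝ) + 1) * k i - x i) := by
          field_simp
        rw [h3, abs_mul, abs_of_pos (by positivity), ha]
        calc ((m : ℝ) + 1) / s * |s / ((m : ℝ) + 1) * k i - x i| ≤ ((m : ℝ) + 1) / s * ρ := by
              gcongr
          _ = _ := by ring
      rw [abs_le] at h2
      rw [Finset.mem_Icc, Int.ceil_le, Int.le_floor]
      constructor <;> linarith
    have h1 := Finset.card_le_card hsub
    rw [Fintype.card_piFinset] at h1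
    have h2 : ∀ i : Fin m, (((Finset.Icc ⌈((m : ℝ) + 1) * x i / s - a⌉
        ⌊((m : ℝ) + 1) * x i / s + a⌋).card : ℕ) : ℝ) ≤ (2 * m + 3) * (1 + ρ / s) := by
      intro i
      rw [Int.card_Icc]
      have h3 : (((⌊((m : ℝ) + 1) * x i / s + a⌋ + 1 -
          ⌈((m : ℝ) + 1) * x i / s - a⌉).toNat : ℕ) : ℝ) ≤ max 0
          ((⌊((m : ℝ) + 1) * x i / s + a⌋ : ℝ) + 1 - ⌈((m : ℝ) + 1) * x i / s - a⌉) := by
        have h4 : (((⌊((m : ℝ) + 1) * x i / s + a⌋ + 1 -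
          ⌈((m : ℝ) + 1) * x i / s - a⌉).toNat : ℕ) : ℤ) = max
          (⌊((m : ℝ) + 1) * x i / s + a⌋ + 1 - ⌈((m : ℝ) + 1) * x i / s - a⌉) 0 :=
          Int.toNat_eq_max _
        have h5 : (((⌊((m : ℝ) + 1) * x i / s + a⌋ + 1 -
          ⌈((m : ℝ) + 1) * x i / s - a⌉).toNat : ℕ) : ℝ) = max
          ((⌊((m : ℝ) + 1) * x i / s + a⌋ : ℝ) + 1 - ⌈((m : ℝ) + 1) * x i / s - a⌉) 0 := by
          exact_mod_cast h4
        rw [h5, max_comm]
      refine h3.trans ?_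
      have h6 := Int.floor_le (((m : ℝ) + 1) * x i / s + a)
      have h7 := Int.le_ceil (((m : ℝ) + 1) * x i / s - a)
      have h8 : a = ((m : ℝ) + 1) * (ρ / s) := by rw [ha]; ring
      have h9 : 0 ≤ ρ / s := by positivity
      apply max_le
      · positivity
      · nlinarith
    calc (J.card : ℝ) ≤ ((∏ i : Fin m, (Finset.Icc ⌈((m : ℝ) + 1) * x i / s - a⌉
        ⌊((m : ℝ) + 1) * x i / s + a⌋).card : ℕ) : ℝ) := by exact_mod_cast h1
      _ = ∏ i : Fin m, (((Finset.Icc ⌈((m : ℝ) + 1) * x i / s - a⌉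
        ⌊((m : ℝ) + 1) * x i / s + a⌋).card : ℕ) : ℝ) := by push_cast; rfl
      _ ≤ ∏ _i : Fin m, ((2 * m + 3) * (1 + ρ / s)) :=
          Finset.prod_le_prod (fun i _ => Nat.cast_nonneg _) fun i _ => h2 i
      _ = ((2 * m + 3) * (1 + ρ / s)) ^ m := by
          rw [Finset.prod_const, Finset.card_univ, Fintype.card_fin]
      _ = (2 * m + 3) ^ m * (1 + ρ / s) ^ m := mul_pow _ _ _
      _ ≤ ((6 * m + 9) ^ m + (2 * m + 3) ^ m + 4 * (m + 1)) * (1 + ρ / s) ^ m := by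
          refine mul_le_mul_of_nonneg_right ?_ (by positivity)
          have : (0 : ℝ) ≤ (6 * m + 9) ^ m + 4 * (m + 1) := by positivity
          linarith
  · intro s k hs hs1 hk
    have h1 : ‖ctr s k‖ ≤ 4 * ((m : ℝ) + 1) := by
      have h2 : ‖ctr s k‖ ^ 2 ≤ (4 * ((m : ℝ) + 1)) ^ 2 := by
        rw [EuclideanSpace.norm_sq_eq]
        have h3 : ∀ i ∈ (Finset.univ : Finset (Fin m)), ‖ctr s k i‖ ^ 2 ≤ 4 ^ 2 := by
          intro i _
          refine pow_le_pow_left₀ (norm_nonneg _) ?_ 2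
          unfold Ks at hk
          rw [Fintype.mem_piFinset] at hk
          have h4 := Finset.mem_Icc.1 (hk i)
          have h5 := Int.ceil_lt_add_one (3 * ((m : ℝ) + 1) / s)
          have h6 : |(k i : ℝ)| ≤ ⌈3 * ((m : ℝ) + 1) / s⌉ := by
            rw [abs_le]
            exact ⟨by exact_mod_cast h4.1, by exact_mod_cast h4.2⟩
          rw [ctr_apply, norm_mul, Real.norm_of_nonneg (by positivity), Real.norm_eq_abs]
          calc s / ((m : ℝ) + 1) * |(k i : ℝ)| ≤ s / ((m : ℝ) + 1) *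
                (3 * ((m : ℝ) + 1) / s + 1) := by
                gcongr
                linarith
            _ = 3 + s / ((m : ℝ) + 1) := by field_simp
            _ ≤ 3 + 1 := by
                have : s / ((m : ℝ) + 1) ≤ 1 := by
                  rw [div_le_one hm]
                  linarith
                linarith
            _ = 4 := by norm_num
        refine (Finset.sum_le_sum h3).trans ?_
        rw [Finset.sum_const, Finset.card_univ, Fintype.card_fin, nsmul_eq_mul]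
        nlinarith
      exact le_of_sq_le_sq h2 (by positivity)
    have h2 : (0 : ℝ) ≤ (6 * m + 9) ^ m + (2 * m + 3) ^ m := by positivity
    linarith

end Pool.Agent.H63.G
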