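import Pool.Agent.H83.G.Targets1

/-!
# MP_ee74d2_an, board `g_modules`: module PUX
-/

set_option autoImplicit false

namespace Pool.Agent.H63.G

open MeasureTheory Set Pool.Agent.H83.G
open scoped ENNReal NNReal RealInnerProductSpace ContDiff

/-- partition function in one variable -/
noncomputable def ps1 (t : ℝ) : ℝ := Real.smoothTransition (t + 1) - Real.smoothTransition t

lemma ps1_contDiff : ContDiff ℝ (⊤ : ℕ∞) ps1 := by
  unfold ps1
  exact (Real.smoothTransition.contDiff.comp (contDiff_id.add contDiff_const)).sub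
    Real.smoothTransition.contDiff

lemma st_mono : Monotone Real.smoothTransition := by
  intro a b hab
  exact Real.smoothTransition.monotone hab

lemma ps1_nonneg (t : ℝ) : 0 ≤ ps1 t := by
  unfold ps1
  have := st_mono (show t ≤ t + 1 by linarith)
  linarith

lemma ps1_le (t : ℝ) : ps1 t ≤ 1 := by
  unfold ps1
  have h1 := Real.smoothTransition.le_one (t + 1)
  have h2 := Real.smoothTransition.nonneg t
  linarith

lemma ps1_zero {t : ℝ} (h : 1 ≤ |t|) : ps1 t = 0 := by
  unfold ps1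
  rcases le_abs.1 h with h | h
  · rw [Real.smoothTransition.one_of_one_le (by linarith),
      Real.smoothTransition.one_of_one_le h, sub_self]
  · rw [Real.smoothTransition.zero_of_nonpos (by linarith),
      Real.smoothTransition.zero_of_nonpos (by linarith), sub_self]

lemma ps1_zero_of {t : ℝ} {j : ℤ} (h : j ∉ ({⌊t⌋, ⌊t⌋ + 1} : Finset ℤ)) : ps1 (t - j) = 0 := by
  apply ps1_zero
  rw [Finset.mem_insert, Finset.mem_singleton, not_or] at h
  have h1 := Int.floor_le t
  have h2 := Int.lt_floor_add_one t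
  rcases lt_or_gt_of_ne h.1 with h3 | h3
  · have h4 : (j : ℝ) ≤ ⌊t⌋ - 1 := by
      have : j ≤ ⌊t⌋ - 1 := by omega
      exact_mod_cast this
    rw [le_abs]
    left
    linarith
  · have h4 : (⌊t⌋ : ℝ) + 2 ≤ j := by
      have : ⌊t⌋ + 2 ≤ j := by omega
      exact_mod_cast this
    rw [le_abs]
    right
    linarith

lemma ps1_sum (t : ℝ) : ∑ j ∈ ({⌊t⌋, ⌊t⌋ + 1} : Finset ℤ), ps1 (t - j) = 1 := by
  rw [Finset.sum_pair (by omega)]
  have h1 := Int.floor_le t
  have h2 := Int.lt_floor_add_one t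
  unfold ps1
  push_cast
  rw [Real.smoothTransition.one_of_one_le (by linarith)]
  rw [show t - (⌊t⌋ + 1 : ℝ) + 1 = t - ⌊t⌋ by ring]
  rw [Real.smoothTransition.zero_of_nonpos (x := t - (⌊t⌋ + 1 : ℝ)) (by linarith)]
  ring

theorem pf_PUX : T_PUX := by
  intro m
  have hm : (0 : ℝ) < (m : ℝ) + 1 := by positivity
  refine ⟨fun x => ((∏ i, ps1 (((m : ℝ) + 1) * x i) : ℝ) : ℂ), ?_, ?_, ?_, ?_⟩
  · have h1 : ContDiff ℝ (⊤ : ℕ∞) (fun x : E m => ∏ i, ps1 (((m : ℝ) + 1) * x i)) := by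
      refine contDiff_prod fun i _ => ?_
      have h2 : ContDiff ℝ (⊤ : ℕ∞) (fun x : E m => x i) := by fun_prop
      exact ps1_contDiff.comp (contDiff_const.mul h2)
    exact Complex.ofRealCLM.contDiff.comp h1
  · intro x hx
    by_contra hne
    have hne' : ∏ i, ps1 (((m : ℝ) + 1) * x i) ≠ 0 := by
      intro h
      apply hne
      simp only [h, Complex.ofReal_zero]
    rw [Finset.prod_ne_zero_iff] at hne'
    have h1 : ∀ i, |x i| < 1 / ((m : ℝ) + 1) := by
      intro i
      by_contra hcon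
      push Not at hcon
      apply hne' i (Finset.mem_univ i)
      apply ps1_zero
      rw [abs_mul, abs_of_pos hm]
      rw [div_le_iff₀ hm] at hcon
      linarith
    have h2 : ‖x‖ ^ 2 < 1 := by
      rw [EuclideanSpace.norm_sq_eq]
      have h3 : ∀ i ∈ (Finset.univ : Finset (Fin m)), ‖x i‖ ^ 2 ≤ (1 / ((m : ℝ) + 1)) ^ 2 := by
        intro i _
        rw [Real.norm_eq_abs]
        exact pow_le_pow_left₀ (abs_nonneg _) (h1 i).le 2
      refine (Finset.sum_le_sum h3).trans_lt ?_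
      rw [Finset.sum_const, Finset.card_univ, Fintype.card_fin, nsmul_eq_mul, div_pow, one_pow,
        mul_one_div, div_lt_one (by positivity)]
      have : (0 : ℝ) ≤ m := Nat.cast_nonneg m
      nlinarith
    have h4 : 1 ≤ ‖x‖ ^ 2 := one_le_pow₀ hx
    linarith
  · intro x
    refine ⟨∏ i, ps1 (((m : ℝ) + 1) * x i), Finset.prod_nonneg fun i _ => ps1_nonneg _,
      Finset.prod_le_one (fun i _ => ps1_nonneg _) fun i _ => ps1_le _, rfl⟩
  · intro x
    have h1 : ∀ k : Fin m → ℤ, ((∏ i, ps1 (((m : ℝ) + 1) * (x - ctr 1 k) i) : ℝ) : ℂ) =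
        ∏ i, ((ps1 (((m : ℝ) + 1) * x i - k i) : ℝ) : ℂ) := by
      intro k
      rw [Complex.ofReal_prod]
      refine Finset.prod_congr rfl fun i _ => ?_
      congr 2
      unfold ctr
      simp only [PiLp.sub_apply, PiLp.smul_apply, smul_eq_mul]
      field_simp
    have h2 : (fun k : Fin m → ℤ => ((∏ i, ps1 (((m : ℝ) + 1) * (x - ctr 1 k) i) : ℝ) : ℂ)) =
        fun k => ∏ i, ((ps1 (((m : ℝ) + 1) * x i - k i) : ℝ) : ℂ) := funext h1
    rw [h2]
    have h3 : ∑ k ∈ Fintype.piFinset (fun i : Fin m =>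
        ({⌊((m : ℝ) + 1) * x i⌋, ⌊((m : ℝ) + 1) * x i⌋ + 1} : Finset ℤ)),
        ∏ i, ((ps1 (((m : ℝ) + 1) * x i - k i) : ℝ) : ℂ) = 1 := by
      have h4 := Finset.prod_univ_sum (fun i : Fin m =>
        ({⌊((m : ℝ) + 1) * x i⌋, ⌊((m : ℝ) + 1) * x i⌋ + 1} : Finset ℤ))
        (fun i (j : ℤ) => ((ps1 (((m : ℝ) + 1) * x i - j) : ℝ) : ℂ))
      rw [← h4]
      refine Finset.prod_eq_one fun i _ => ?_
      rw [← Complex.ofReal_sum, ps1_sum]
      simp
    rw [← h3]
    refine hasSum_sum_of_ne_finset_zero fun k hk => ?_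
    rw [Fintype.mem_piFinset] at hk
    push Not at hk
    obtain ⟨i, hi⟩ := hk
    refine Finset.prod_eq_zero (Finset.mem_univ i) ?_
    rw [ps1_zero_of hi]
    simp

end Pool.Agent.H63.G
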